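import Mathlib

open Matrix Module

namespace Pool.Agent.Results.MP_6598fd_al.SingerCycle

/-- A subgroup `G` of `GL(n, F)` has the rank property if for every singular matrix `a` there is
`g ∈ G` with `rank (a g a) = rank a`. -/
def RankProperty {F : Type*} [Field F] {n : ℕ} (G : Subgroup (GL (Fin n) F)) : Prop :=
  ∀ a : Matrix (Fin n) (Fin n) F, a.det = 0 →
    ∃ g ∈ G, (a * (g : Matrix (Fin n) (Fin n) F) * a).rank = a.rank

lemma exists_unit {F L : Type*} [Field F] [Field L] [Finite L] [Algebra F L]
    (I K : Submodule F L) (hI : I ≠ ⊥) (hK : K ≠ ⊥)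
    (h : Nat.card I * Nat.card K = Nat.card L) :
    ∃ x : L, x ≠ 0 ∧ ∀ i ∈ I, x * i ∈ K → i = 0 := by
  classical
  by_contra hcon
  push Not at hcon
  choose! i hi using hcon
  have := Fintype.ofFinite L
  have := Fintype.ofFinite I
  have := Fintype.ofFinite K
  let g : {x : L | x ≠ 0} → {x : I | x ≠ 0} × {x : K | x ≠ 0} := fun x =>
    (⟨⟨i x.1, (hi x.1 x.2).1⟩, fun h0 => (hi x.1 x.2).2.2 (congrArg Subtype.val h0)⟩,
      ⟨⟨x.1 * i x.1, (hi x.1 x.2).2.1⟩, fun h0 => by
        have h1 : x.1 * i x.1 = 0 := congrArg Subtype.val h0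
        rcases mul_eq_zero.mp h1 with h2 | h2
        · exact x.2 h2
        · exact (hi x.1 x.2).2.2 h2⟩)
  have hg : Function.Injective g := by
    intro x y hxy
    have h1 : i x.1 = i y.1 := congrArg (fun p => p.1.1.1) hxy
    have h2 : x.1 * i x.1 = y.1 * i y.1 := congrArg (fun p => p.2.1.1) hxy
    rw [← h1] at h2
    exact Subtype.ext (mul_right_cancel₀ (hi x.1 x.2).2.2 h2)
  have hcard := Fintype.card_le_of_injective g hg
  rw [Fintype.card_prod, Set.card_ne_eq, Set.card_ne_eq, Set.card_ne_eq] at hcard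
  rw [Nat.card_eq_fintype_card, Nat.card_eq_fintype_card, Nat.card_eq_fintype_card] at h
  have hI2 : 2 ≤ Fintype.card I := by
    have : Nontrivial I := Submodule.nontrivial_iff_ne_bot.mpr hI
    exact Fintype.one_lt_card
  have hK2 : 2 ≤ Fintype.card K := by
    have : Nontrivial K := Submodule.nontrivial_iff_ne_bot.mpr hK
    exact Fintype.one_lt_card
  obtain ⟨a, ha⟩ := Nat.exists_eq_add_of_le hI2
  obtain ⟨b, hb⟩ := Nat.exists_eq_add_of_le hK2
  rw [← h, ha, hb] at hcard
  have h3 : (2 + a) * (2 + b) - 1 = 3 + 2 * a + 2 * b + a * b := by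
    have : (2 + a) * (2 + b) = 4 + 2 * a + 2 * b + a * b := by ring
    omega
  have h4 : (2 + a - 1) * (2 + b - 1) = 1 + a + b + a * b := by
    have h5 : 2 + a - 1 = 1 + a := by omega
    have h6 : 2 + b - 1 = 1 + b := by omega
    rw [h5, h6]
    ring
  rw [h3, h4] at hcard
  omega

/-- The Singer cycle: the image of the multiplicative group of an extension field. -/
noncomputable def singer {F L : Type*} [Field F] [Field L] [Algebra F L] {n : ℕ}
    (b : Basis (Fin n) F L) : Subgroup (GL (Fin n) F) :=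
  (Units.map (Algebra.leftMulMatrix b : L →* Matrix (Fin n) (Fin n) F)).range

lemma singer_rank {F L : Type*} [Field F] [Finite F] [Field L] [Finite L] [Algebra F L] {n : ℕ}
    (b : Basis (Fin n) F L) : RankProperty (singer b) := by
  intro a ha
  set f : L →ₗ[F] L := Matrix.toLin b b a with hf
  have hrank : ∀ c : Matrix (Fin n) (Fin n) F, c.rank = finrank F (LinearMap.range (Matrix.toLin b b c)) :=
    fun c => Matrix.rank_eq_finrank_range_toLin c b b
  by_cases hI : LinearMap.range f = ⊥
  · have ha0 : a = 0 := by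
      have : f = 0 := LinearMap.range_eq_bot.mp hI
      rw [hf] at this
      exact (Matrix.toLin b b).map_eq_zero_iff.mp this
    exact ⟨1, Subgroup.one_mem _, by simp [ha0]⟩
  · have hK : LinearMap.ker f ≠ ⊥ := by
      intro hker
      have : Module.Finite F L := Module.Finite.of_basis b
      have h1 : IsUnit (LinearMap.det f) :=
        LinearMap.isUnit_det f ((LinearMap.isUnit_iff_ker_eq_bot f).mpr hker)
      rw [hf, LinearMap.det_toLin, ha] at h1
      exact not_isUnit_zero h1
    have hcard : Nat.card (LinearMap.range f) * Nat.card (LinearMap.ker f) = Nat.card L := by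
      have : Module.Finite F L := Module.Finite.of_basis b
      rw [Module.natCard_eq_pow_finrank (K := F) (V := LinearMap.range f),
        Module.natCard_eq_pow_finrank (K := F) (V := LinearMap.ker f),
        Module.natCard_eq_pow_finrank (K := F) (V := L), ← pow_add,
        LinearMap.finrank_range_add_finrank_ker]
    obtain ⟨x, hx, hxI⟩ := exists_unit _ _ hI hK hcard
    refine ⟨Units.map (Algebra.leftMulMatrix b : L →* Matrix (Fin n) (Fin n) F) (Units.mk0 x hx),
      ⟨Units.mk0 x hx, rfl⟩, ?_⟩
    have hm : Matrix.toLin b b (Algebra.leftMulMatrix b x) = LinearMap.mulLeft F x := by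
      rw [Algebra.leftMulMatrix_apply, Matrix.toLin_toMatrix]
      rfl
    rw [hrank, hrank]
    have h2 : Matrix.toLin b b (a * ((Units.map (Algebra.leftMulMatrix b :
        L →* Matrix (Fin n) (Fin n) F) (Units.mk0 x hx) : GL (Fin n) F) :
          Matrix (Fin n) (Fin n) F) * a) = (f ∘ₗ LinearMap.mulLeft F x) ∘ₗ f := by
      rw [Matrix.toLin_mul b b b, Matrix.toLin_mul b b b]
      have h3 : ((Units.map (Algebra.leftMulMatrix b :
        L →* Matrix (Fin n) (Fin n) F) (Units.mk0 x hx) : GL (Fin n) F) :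
          Matrix (Fin n) (Fin n) F) = Algebra.leftMulMatrix b x := rfl
      rw [h3, hm]
    rw [h2, LinearMap.range_comp, ← LinearMap.range_domRestrict]
    rw [LinearMap.finrank_range_of_inj]
    rw [← LinearMap.ker_eq_bot, LinearMap.ker_eq_bot']
    rintro ⟨i, hi⟩ h4
    have h5 : f (x * i) = 0 := h4
    exact Subtype.ext (hxI i hi h5)

lemma singer_not_SL {F L : Type*} [Field F] [Field L] [Algebra F L] {n : ℕ} (hn : 2 ≤ n)
    (b : Basis (Fin n) F L) :
    ¬ (Matrix.SpecialLinearGroup.toGL : SpecialLinearGroup (Fin n) F →* GL (Fin n) F).range ≤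
      singer b := by
  intro hle
  have hcomm : ∀ g ∈ singer b, ∀ h ∈ singer b, g * h = h * g := by
    rintro _ ⟨x, rfl⟩ _ ⟨y, rfl⟩
    rw [← map_mul, ← map_mul, mul_comm]
  let i₀ : Fin n := ⟨0, by omega⟩
  let i₁ : Fin n := ⟨1, by omega⟩
  have h01 : i₀ ≠ i₁ := by
    intro h
    have := congrArg Fin.val h
    simp [i₀, i₁] at this
  let s : SpecialLinearGroup (Fin n) F := ⟨transvection i₀ i₁ 1, det_transvection_of_ne _ _ h01 1⟩
  let t : SpecialLinearGroup (Fin n) F :=
    ⟨transvection i₁ i₀ 1, det_transvection_of_ne _ _ h01.symm 1⟩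
  have h1 := hcomm _ (hle ⟨s, rfl⟩) _ (hle ⟨t, rfl⟩)
  have h2 : transvection i₀ i₁ (1 : F) * transvection i₁ i₀ 1 =
      transvection i₁ i₀ 1 * transvection i₀ i₁ 1 := congrArg Units.val h1
  have h3 := congrFun (congrFun h2 i₀) i₀
  simp only [transvection, add_mul, mul_add, one_mul, mul_one, Matrix.add_apply,
    Matrix.single_mul_single_same, Matrix.one_apply_eq] at h3
  simp [Matrix.single_apply, h01, h01.symm] at h3

/-- **Main result.** For every finite field `F` and every `n ≥ 2` there is a subgroup of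
`GL(n, F)` which has the rank property but does not contain `SL(n, F)`. -/
theorem result (F : Type*) [Field F] [Finite F] (n : ℕ) (hn : 2 ≤ n) :
    ∃ G : Subgroup (GL (Fin n) F), RankProperty G ∧
      ¬ (Matrix.SpecialLinearGroup.toGL : SpecialLinearGroup (Fin n) F →* GL (Fin n) F).range ≤ G := by
  obtain ⟨p, hp⟩ := CharP.exists F
  have hp' : Fact p.Prime := ⟨CharP.char_is_prime F p⟩
  have : NeZero n := ⟨by omega⟩
  let L := FiniteField.Extension F p n
  have hfin : finrank F L = n := FiniteField.finrank_extension F p n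
  have : Finite L := Module.finite_of_finite F
  let b : Basis (Fin n) F L := Module.finBasisOfFinrankEq F L hfin
  exact ⟨singer b, singer_rank b, singer_not_SL hn b⟩

end Pool.Agent.Results.MP_6598fd_al.SingerCycle
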